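import Pool.Agent.H20.KH.Stmts
import Pool.Agent.H72.KG.BAY
import Pool.Agent.H33.KG.BAS
import Pool.Agent.H73.KL.HES
import Pool.Agent.H73.KL.GRO
import Pool.Agent.H27.KL.FUB
import Pool.Agent.H2.KL.ST1
import Pool.Agent.H14.KL.CONC
import Pool.Agent.H14.KL.PLM
import Pool.Agent.H87.KL.NCD
import Pool.Agent.H83.KL.VAR

/-! # Project KH, module CV2: convolution with the standard Gaussian measure -/

set_option autoImplicit false

open MeasureTheory Set Filter Topology
open scoped ContDiff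

namespace Pool.Agent.H20.KH

open Pool.Agent.H84 Pool.Agent.H84.Sym Pool.Agent.H84.Sym.P2x Pool.Agent.H84.Sym.C29
open Pool.Agent.H19.KL Pool.Agent.H19.KL.LIPx Pool.Agent.H73.KG

section cv2

variable {E : Type} [NormedAddCommGroup E] [InnerProductSpace ℝ E]
    [FiniteDimensional ℝ E] [MeasurableSpace E] [BorelSpace E]

/-- the two ways to integrate a product over `(x, y)` -/
theorem CV2_swap {U : E → ℝ} {t C : ℝ} (hU : Pot U t C) {ψ G : E → ℝ} (hψ : GC ψ) (hG : GC G) :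
    ∫ y, av U 1 ψ y * G y ∂(mu (WW U 1)) = ∫ x, ψ x * av (fun _ => (0:ℝ)) 1 G x ∂(mu U) := by
  have hh : HESStmt E := hes_thm E (ncd_thm E) (var_thm E)
  obtain ⟨C', hW⟩ := (hh U t C 1 hU one_pos).1
  have hA : Adm U 1 := adm_of_pot hU one_pos
  rw [BAY_swap hU one_pos hG hψ, integral_mu hW.smooth.continuous, ← integral_const_mul]
  refine integral_congr_ae (Eventually.of_forall fun y => ?_)
  simp only
  have h1 := av_mul_exp hA ψ y
  calc av U 1 ψ y * G y * Real.exp (-WW U 1 y) = G y * (av U 1 ψ y * Real.exp (-WW U 1 y)) := by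
        ring
    _ = G y * (NI U 1 ψ y / gs E 1) := by rw [h1]
    _ = _ := by rw [div_eq_inv_mul]; ring

theorem CV2_gli (w : E) : GC (li w) := BAS_li w

/-- first moment of the noise -/
theorem CV2_m1 (w x : E) : av (fun _ => (0:ℝ)) 1 (fun y => (inner ℝ y w : ℝ)) x = inner ℝ x w := by
  have hA := adm_zero (E := E) one_pos
  have h1 := (ncd_thm E (fun _ => 0) 1 hA (fun _ => 1) (GC.const 1)).2 x w
  have h2 : NI (fun _ : E => (0:ℝ)) 1 (fun _ => 1) = fun _ => gs E 1 := by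
    funext y
    exact st1_one 1 y
  rw [h2] at h1
  simp only [fderiv_fun_const, Pi.zero_apply, zero_apply, one_mul] at h1
  have hg : gs E 1 ≠ 0 := (gs_pos (E := E) one_pos).ne'
  unfold av
  rw [st1_one, div_eq_iff hg]
  linarith

/-- second moment of the noise -/
theorem CV2_m2 (v w x : E) : av (fun _ => (0:ℝ)) 1
    (fun y => (inner ℝ y v : ℝ) * inner ℝ y w) x = inner ℝ x v * inner ℝ x w + inner ℝ v w := by
  have hA := adm_zero (E := E) one_pos
  have h1 := (dav_thm E (ncd_thm E) (fun _ => 0) 1 hA (fun y => (inner ℝ y v : ℝ)) (gc_inner v)).2 x w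
  have h2 : av (fun _ : E => (0:ℝ)) 1 (fun y => (inner ℝ y v : ℝ)) = fun x => inner ℝ x v := by
    funext y
    exact CV2_m1 v y
  rw [h2] at h1
  have h3 : HasFDerivAt (fun x : E => (inner ℝ x v : ℝ)) (innerSL ℝ v) x := by
    have h4 : HasFDerivAt (fun x : E => (inner ℝ v x : ℝ)) (innerSL ℝ v) x :=
      (innerSL ℝ v).hasFDerivAt
    have e : (fun x : E => (inner ℝ x v : ℝ)) = fun x => inner ℝ v x := by
      funext y
      exact real_inner_comm _ _
    rw [e]
    exact h4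
  rw [h3.fderiv, innerSL_apply_apply, CV2_m1, one_mul] at h1
  linarith

/-- the noise average of the product of two centred linear functions -/
theorem CV2_m3 (v w x : E) (a b : ℝ) : av (fun _ => (0:ℝ)) 1
    (fun y => (li v y - a) * (li w y - b)) x = (li v x - a) * (li w x - b) + inner ℝ v w := by
  have hA := adm_zero (E := E) one_pos
  have e : (fun y : E => (li v y - a) * (li w y - b)) = fun y => inner ℝ y v * inner ℝ y w +
      ((-b) * inner ℝ y v + ((-a) * inner ℝ y w + a * b)) := by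
    funext y
    unfold li
    rw [real_inner_comm y v, real_inner_comm y w]
    ring
  have g1 : GC (fun y : E => (inner ℝ y v : ℝ) * inner ℝ y w) := (gc_inner v).mul (gc_inner w)
  have g2 : GC (fun y : E => (-b) * (inner ℝ y v : ℝ)) := (GC.const (-b)).mul (gc_inner v)
  have g3 : GC (fun y : E => (-a) * (inner ℝ y w : ℝ)) := (GC.const (-a)).mul (gc_inner w)
  have g4 : GC (fun _ : E => a * b) := GC.const (a * b)
  rw [e, av_add hA g1 (g2.add (g3.add g4)), av_add hA g2 (g3.add g4), av_add hA g3 g4,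
    av_const_mul hA, av_const_mul hA, av_const hA, CV2_m1, CV2_m1, CV2_m2]
  unfold li
  rw [real_inner_comm x v, real_inner_comm x w]
  ring

theorem CV2_gro : GROStmt E := gro_thm E (dav_thm E (ncd_thm E)) (con_thm E (plm_thm E))

theorem CV2_fub : FUBStmt E := fub_thm E (ncd_thm E) (hes_thm E (ncd_thm E) (var_thm E)) CV2_gro

/-- the means of the linear functions are unchanged -/
theorem CV2_mn {U : E → ℝ} {t C : ℝ} (hU : Pot U t C) (w : E) : mn (WW U 1) w = mn U w := by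
  unfold H73.KG.mn
  rw [(CV2_fub U t C 1 hU one_pos (li w) (CV2_gli w)).2.1]
  refine integral_congr_ae (Eventually.of_forall fun x => ?_)
  have h := CV2_m1 w x
  have e : (fun y : E => (inner ℝ y w : ℝ)) = li w := by
    funext y
    exact real_inner_comm _ _
  rw [e] at h
  rw [h]
  exact real_inner_comm _ _

/-- the quadratic covariances are unchanged -/
theorem CV2_q2 {U : E → ℝ} {t C : ℝ} (hU : Pot U t C) (hp : IsProbabilityMeasure (mu U))
    {ψ : E → ℝ} (hψ : GC ψ) (u v : E) : q2 (WW U 1) (av U 1 ψ) u v = q2 U ψ u v := by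
  have hA : Adm U 1 := adm_of_pot hU one_pos
  set a := mn U u with ha
  set b := mn U v with hb
  set G : E → ℝ := fun y => (li u y - a) * (li v y - b) with hG
  have hGg : GC G := ((CV2_gli u).sub (GC.const a)).mul ((CV2_gli v).sub (GC.const b))
  have e1 : (fun x => av (fun _ => (0:ℝ)) 1 G x) = fun x => G x + inner ℝ u v := by
    funext x
    exact CV2_m3 u v x a b
  have h1 : ∫ y, av U 1 ψ y * G y ∂(mu (WW U 1)) =
      (∫ x, ψ x * G x ∂(mu U)) + inner ℝ u v * ∫ x, ψ x ∂(mu U) := by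
    rw [CV2_swap hU hψ hGg]
    have e2 : (fun x => ψ x * av (fun _ => (0:ℝ)) 1 G x) =
        fun x => ψ x * G x + inner ℝ u v * ψ x := by
      funext x
      have h5 : av (fun _ => (0:ℝ)) 1 G x = G x + inner ℝ u v := congrFun e1 x
      rw [h5]
      ring
    rw [e2, integral_add ((hψ.mul hGg).integrable hU) ((hψ.integrable hU).const_mul _),
      integral_const_mul]
  have h2 : ∫ y, G y ∂(mu (WW U 1)) = (∫ x, G x ∂(mu U)) + inner ℝ u v := by
    rw [(CV2_fub U t C 1 hU one_pos G hGg).2.1]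
    rw [e1, integral_add (hGg.integrable hU) (integrable_const _)]
    simp
  have h3 : ∫ y, av U 1 ψ y ∂(mu (WW U 1)) = ∫ x, ψ x ∂(mu U) :=
    (CV2_fub U t C 1 hU one_pos ψ hψ).1
  unfold q2 H73.KG.cv
  rw [CV2_mn hU, CV2_mn hU, ← ha, ← hb]
  change (∫ y, av U 1 ψ y * G y ∂(mu (WW U 1))) - (∫ y, av U 1 ψ y ∂(mu (WW U 1))) *
    (∫ y, G y ∂(mu (WW U 1))) = (∫ x, ψ x * G x ∂(mu U)) - (∫ x, ψ x ∂(mu U)) * ∫ x, G x ∂(mu U)
  rw [h1, h2, h3]
  ring

/-- the variance decreases -/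
theorem CV2_var {U : E → ℝ} {t C : ℝ} (hU : Pot U t C) {ψ : E → ℝ} (hψ : GC ψ) :
    cv (WW U 1) (av U 1 ψ) (av U 1 ψ) ≤ cv U ψ ψ := by
  have hA : Adm U 1 := adm_of_pot hU one_pos
  have hh : HESStmt E := hes_thm E (ncd_thm E) (var_thm E)
  obtain ⟨C', hW⟩ := (hh U t C 1 hU one_pos).1
  have h3 : ∫ y, av U 1 ψ y ∂(mu (WW U 1)) = ∫ x, ψ x ∂(mu U) :=
    (CV2_fub U t C 1 hU one_pos ψ hψ).1
  have h4 : ∫ y, av U 1 (fun x => ψ x ^ 2) y ∂(mu (WW U 1)) = ∫ x, ψ x ^ 2 ∂(mu U) :=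
    (CV2_fub U t C 1 hU one_pos _ hψ.sq).1
  have g1 : GC (av U 1 ψ) := CV2_gro U 1 hA ψ hψ
  have g2 : GC (av U 1 (fun x => ψ x ^ 2)) := CV2_gro U 1 hA _ hψ.sq
  have h5 : ∫ y, av U 1 ψ y * av U 1 ψ y ∂(mu (WW U 1)) ≤
      ∫ y, av U 1 (fun x => ψ x ^ 2) y ∂(mu (WW U 1)) := by
    refine integral_mono ((g1.mul g1).integrable hW) (g2.integrable hW) fun y => ?_
    have := var_nonneg hA hψ y
    simp only
    nlinarith
  unfold H73.KG.cv
  rw [h3]
  have e : (fun x => ψ x * ψ x) = fun x => ψ x ^ 2 := by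
    funext x
    ring
  rw [e, ← h4]
  linarith

/-- the law of the noisy observation -/
theorem CV2_bp {U : E → ℝ} {τ : ℝ} (hU : PP U τ) (hc : CovLe U 1) (h0 : 0 < τ) (h1 : τ ≤ 1) :
    BP (WW U 1) (τ / 2) ∧ CovLe (WW U 1) 5 := by
  obtain ⟨⟨C, hP⟩, hprob⟩ := id hU
  have hA : Adm U 1 := adm_of_pot hP one_pos
  have hh : HESStmt E := hes_thm E (ncd_thm E) (var_thm E)
  obtain ⟨⟨C', hW⟩, -, hs⟩ := hh U τ C 1 hP one_pos
  have hprobW := (CV2_fub U τ C 1 hP one_pos (fun _ => 1) (GC.const 1)).2.2 hprob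
  refine ⟨⟨⟨⟨C', BAS_pot hW (by linarith) ?_⟩, hprobW⟩, ?_⟩, ?_⟩
  · rw [mul_one, div_le_div_iff₀ (by norm_num) (by linarith)]
    nlinarith
  · intro x v
    rw [hs x v]
    have := var_nonneg hA (gc_inner v) x
    nlinarith
  · intro w
    have h2 := hc w
    unfold H73.KG.cv at h2 ⊢
    have e1 : ∫ y, li w y ∂(mu (WW U 1)) = ∫ x, li w x ∂(mu U) := CV2_mn hP w
    have e2 : ∫ y, li w y * li w y ∂(mu (WW U 1)) =
        (∫ x, li w x * li w x ∂(mu U)) + ‖w‖ ^ 2 := by
      rw [(CV2_fub U τ C 1 hP one_pos (fun y => li w y * li w y)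
        ((CV2_gli w).mul (CV2_gli w))).2.1]
      have e3 : (fun x => av (fun _ => (0:ℝ)) 1 (fun y => li w y * li w y) x) =
          fun x => li w x * li w x + ‖w‖ ^ 2 := by
        funext x
        have := CV2_m3 w w x 0 0
        simp only [sub_zero] at this
        rw [this, real_inner_self_eq_norm_sq]
      rw [e3, integral_add (((CV2_gli w).mul (CV2_gli w)).integrable hP) (integrable_const _)]
      simp
    rw [e1, e2]
    nlinarith [sq_nonneg ‖w‖]

end cv2

theorem cv2_thm (E : Type) [NormedAddCommGroup E] [InnerProductSpace ℝ E]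
    [FiniteDimensional ℝ E] [MeasurableSpace E] [BorelSpace E] : CV2Stmt E := by
  intro τ K h0 h1 hK H U hU hc ψ hψ ι _ b
  obtain ⟨⟨C, hP⟩, hprob⟩ := id hU
  have hA : Adm U 1 := adm_of_pot hP one_pos
  obtain ⟨hB, hC⟩ := CV2_bp hU hc h0 h1
  have h2 := H (WW U 1) hB hC (av U 1 ψ) (CV2_gro U 1 hA ψ hψ) ι b
  have e : ∑ i, ∑ j, (q2 (WW U 1) (av U 1 ψ) (b i) (b j)) ^ 2 =
      ∑ i, ∑ j, (q2 U ψ (b i) (b j)) ^ 2 :=
    Finset.sum_congr rfl fun i _ => Finset.sum_congr rfl fun j _ => by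
      rw [CV2_q2 hP hprob hψ]
  rw [e] at h2
  exact h2.trans (mul_le_mul_of_nonneg_left (CV2_var hP hψ) hK)

end Pool.Agent.H20.KH
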